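import Pool.Agent.Helper39.Trans.Goals

/-!
# Packet D, combinatorial part: counting by Davenport-Schinzel sequences
-/

namespace Pool.Agent.Helper11.Trans

open Finset Classical Pool.Agent.Helper39.Trans

/-- The inverse Ackermann function is monotone. -/
theorem invAck_mono {m n : ℕ} (h : m ≤ n) : invAck m ≤ invAck n := by
  unfold invAck
  apply Nat.sInf_le
  have hne : {k | n ≤ ack k k}.Nonempty := ⟨n, (lt_ack_right n n).le⟩
  have := Nat.sInf_mem hne
  exact le_trans h this

theorem length_destutter'_cons_le {σ : Type} (a b : σ) (l : List σ) :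
    (List.destutter' (· ≠ ·) b l).length + (if a = b then 0 else 1) =
      (List.destutter' (· ≠ ·) a (b :: l)).length := by
  by_cases h : a = b
  · subst h
    rw [List.destutter'_cons_neg _ (by simp)]
    simp
  · rw [List.destutter'_cons_pos _ h]
    simp [h]

/-- A chain of pairs is not longer than the two destuttered projections. -/
theorem length_le_destutter_pair {σ τ : Type} : ∀ (l : List (σ × τ)) (a : σ × τ),
    (a :: l).IsChain (· ≠ ·) →
    l.length + 2 ≤ (List.destutter' (· ≠ ·) a.1 (l.map Prod.fst)).length +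
      (List.destutter' (· ≠ ·) a.2 (l.map Prod.snd)).length
  | [], a, _ => by simp
  | b :: l, a, h => by
    have h1 : a ≠ b := by
      rw [List.isChain_cons_cons] at h
      exact h.1
    have h2 : (b :: l).IsChain (· ≠ ·) := by
      rw [List.isChain_cons_cons] at h
      exact h.2
    have ih := length_le_destutter_pair l b h2
    rw [List.map_cons, List.map_cons, ← length_destutter'_cons_le a.1 b.1,
      ← length_destutter'_cons_le a.2 b.2, List.length_cons]
    have h3 : ¬ (a.1 = b.1 ∧ a.2 = b.2) := fun h => h1 (Prod.ext h.1 h.2)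
    by_cases h4 : a.1 = b.1
    · have h5 : a.2 ≠ b.2 := fun h => h3 ⟨h4, h⟩
      simp only [h4, h5, if_true, if_false]
      omega
    · simp only [h4, if_false]
      omega

/-- The Davenport-Schinzel bound for destuttered lists. -/
theorem ds_bound {C : ℕ} (hC : ∀ (σ : Type) (L : List σ), L.IsChain (· ≠ ·) → Alt5Free L →
    L.length ≤ C * L.toFinset.card * (invAck L.toFinset.card + 1)) {σ : Type} (L : List σ)
    (hL : Alt5Free L) (T : Finset σ) (hT : ∀ x ∈ L, x ∈ T) :
    (L.destutter (· ≠ ·)).length ≤ C * T.card * (invAck T.card + 1) := by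
  have h1 := hC σ (L.destutter (· ≠ ·)) (List.isChain_destutter (· ≠ ·) L) (by
    intro a b hab hs
    exact hL a b hab (hs.trans (List.destutter_sublist _ _)))
  have h2 : (L.destutter (· ≠ ·)).toFinset.card ≤ T.card := by
    apply Finset.card_le_card
    intro x hx
    rw [List.mem_toFinset] at hx
    exact hT x ((List.destutter_sublist _ _).subset hx)
  calc (L.destutter (· ≠ ·)).length
      ≤ C * (L.destutter (· ≠ ·)).toFinset.card *
        (invAck (L.destutter (· ≠ ·)).toFinset.card + 1) := h1
    _ ≤ C * T.card * (invAck T.card + 1) :=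
        Nat.mul_le_mul (Nat.mul_le_mul_left C h2) (Nat.succ_le_succ (invAck_mono h2))

/-- Counting points on a line with two lists of symbols without alternations of length five. -/
theorem class_bound {C : ℕ} (hC : ∀ (σ : Type) (L : List σ), L.IsChain (· ≠ ·) → Alt5Free L →
    L.length ≤ C * L.toFinset.card * (invAck L.toFinset.card + 1)) {P σ : Type} (V : Finset P)
    (T : Finset σ) (s : P → ℝ) (x y : P → σ) (hs : Set.InjOn s V) (hx : ∀ q ∈ V, x q ∈ T)
    (hy : ∀ q ∈ V, y q ∈ T)
    (hxy : ∀ q ∈ V, ∀ q' ∈ V, q ≠ q' → ¬ (x q = x q' ∧ y q = y q'))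
    (hax : ∀ a b : σ, a ≠ b → ∀ q1 ∈ V, ∀ q2 ∈ V, ∀ q3 ∈ V, ∀ q4 ∈ V, ∀ q5 ∈ V,
      s q1 < s q2 → s q2 < s q3 → s q3 < s q4 → s q4 < s q5 → x q1 = a → x q2 = b → x q3 = a →
      x q4 = b → x q5 = a → False)
    (hay : ∀ a b : σ, a ≠ b → ∀ q1 ∈ V, ∀ q2 ∈ V, ∀ q3 ∈ V, ∀ q4 ∈ V, ∀ q5 ∈ V,
      s q1 < s q2 → s q2 < s q3 → s q3 < s q4 → s q4 < s q5 → y q1 = a → y q2 = b → y q3 = a →
      y q4 = b → y q5 = a → False) :
    V.card ≤ 2 * (C * T.card * (invAck T.card + 1)) := by
  set r : P → P → Prop := fun q q' => s q ≤ s q' with hr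
  have : Std.Total r := ⟨fun a b => le_total (s a) (s b)⟩
  have : IsTrans P r := ⟨fun a b c hab hbc => le_trans hab hbc⟩
  set L : List P := V.toList.insertionSort r with hL
  have hperm : L.Perm V.toList := List.perm_insertionSort r _
  have hlen : L.length = V.card := by rw [hperm.length_eq, Finset.length_toList]
  have hmem : ∀ q ∈ L, q ∈ V := fun q hq => by
    rw [← Finset.mem_toList]
    exact hperm.subset hq
  have hnod : L.Nodup := hperm.nodup_iff.mpr V.nodup_toList
  have hsort : L.Pairwise r := List.pairwise_insertionSort r _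
  have hlt : L.Pairwise (fun q q' => s q < s q') := by
    have h1 := hsort.and hnod
    refine List.Pairwise.imp_of_mem ?_ h1
    intro a b ha hb hab
    refine lt_of_le_of_ne hab.1 fun h => hab.2 ?_
    exact hs (hmem a ha) (hmem b hb) h
  -- alternations
  have key : ∀ z : P → σ, (∀ a b : σ, a ≠ b → ∀ q1 ∈ V, ∀ q2 ∈ V, ∀ q3 ∈ V, ∀ q4 ∈ V, ∀ q5 ∈ V,
      s q1 < s q2 → s q2 < s q3 → s q3 < s q4 → s q4 < s q5 → z q1 = a → z q2 = b → z q3 = a →
      z q4 = b → z q5 = a → False) → Alt5Free (L.map z) := by
    intro z hz a b hab hsub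
    rw [List.sublist_map_iff] at hsub
    obtain ⟨l', hl', heq⟩ := hsub
    have h5 : l'.length = 5 := by
      have := congrArg List.length heq
      simpa using this.symm
    match l', h5 with
    | [q1, q2, q3, q4, q5], _ =>
      simp only [List.map_cons, List.map_nil, List.cons.injEq, and_true] at heq
      obtain ⟨e1, e2, e3, e4, e5⟩ := heq
      have hp := hlt.sublist hl'
      simp only [List.pairwise_cons, List.mem_cons, List.not_mem_nil, or_false] at hp
      have m : ∀ q ∈ [q1, q2, q3, q4, q5], q ∈ V := fun q hq => hmem q (hl'.subset hq)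
      exact hz a b hab q1 (m _ (by simp)) q2 (m _ (by simp)) q3 (m _ (by simp)) q4
        (m _ (by simp)) q5 (m _ (by simp)) (hp.1 _ (by simp)) (hp.2.1 _ (by simp))
        (hp.2.2.1 _ (by simp)) (hp.2.2.2.1 _ (by simp)) e1.symm e2.symm e3.symm e4.symm e5.symm
  have hbx := ds_bound hC (L.map x) (key x hax) T (by
    intro c hc
    rw [List.mem_map] at hc
    obtain ⟨q, hq, rfl⟩ := hc
    exact hx q (hmem q hq))
  have hby := ds_bound hC (L.map y) (key y hay) T (by
    intro c hc
    rw [List.mem_map] at hc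
    obtain ⟨q, hq, rfl⟩ := hc
    exact hy q (hmem q hq))
  rw [← hlen]
  rcases hLe : L with _ | ⟨q0, l⟩
  · simp
  · rw [hLe] at hbx hby
    rw [List.map_cons, List.destutter_cons'] at hbx hby
    have hchain : ((x q0, y q0) :: l.map (fun q => (x q, y q))).IsChain (· ≠ ·) := by
      have h1 : ((q0 :: l).map (fun q => (x q, y q))).IsChain (· ≠ ·) := by
        apply List.Pairwise.isChain
        rw [List.pairwise_map]
        rw [← hLe]
        refine List.Pairwise.imp_of_mem ?_ hnod
        intro a b ha hb hab h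
        exact hxy a (hmem a ha) b (hmem b hb) hab (Prod.ext_iff.mp h)
      simpa using h1
    have h2 := length_le_destutter_pair _ _ hchain
    rw [List.map_map, List.map_map, List.length_map] at h2
    have e1 : (Prod.fst ∘ fun q => (x q, y q)) = x := rfl
    have e2 : (Prod.snd ∘ fun q => (x q, y q)) = y := rfl
    rw [e1, e2] at h2
    rw [List.length_cons]
    simp only at h2
    omega

end Pool.Agent.Helper11.Trans
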