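import Pool.Agent.Helper39.Trans.Goals2

/-!
# Packet T2 of MP_549fdb_co: the final theorem from the bound for systems in general position
-/

namespace Pool.Agent.Helper11.Trans.FinalT2

open Finset Classical Matrix Pool.Agent.Helper39.Trans

/-! ## The inverse Ackermann function -/

theorem invAck_spec (n : ℕ) : n ≤ ack (invAck n) (invAck n) := by
  have hne : {k | n ≤ ack k k}.Nonempty := ⟨n, (lt_ack_left n n).le⟩
  exact Nat.sInf_mem hne

theorem invAck_pos {n : ℕ} (hn : 2 ≤ n) : 1 ≤ invAck n := by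
  by_contra h
  have h0 : invAck n = 0 := by omega
  have := invAck_spec n
  rw [h0] at this
  simp at this
  omega

theorem two_mul_ack_le (k : ℕ) : 2 * ack k k ≤ ack (k + 1) (k + 1) := by
  rcases k with _ | _ | k
  · simp
  · show 2 * ack 1 1 ≤ ack 2 2
    rw [ack_one, ack_two]
    norm_num
  · have h1 : ack (k + 2) (k + 2) + 1 ≤ ack (k + 3) (k + 2) :=
      le_trans (ack_strictMono_right (k + 2) (Nat.lt_succ_self (k + 2)))
        (ack_succ_right_le_ack_succ_left (k + 2) (k + 2))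
    have h2 : ack (k + 3) (k + 3) = ack (k + 2) (ack (k + 3) (k + 2)) := by
      rw [show k + 3 = (k + 2) + 1 from rfl, ack_succ_succ]
    have h3 : ack 2 (ack (k + 2) (k + 2) + 1) ≤ ack (k + 2) (ack (k + 3) (k + 2)) :=
      le_trans (ack_le_ack (by omega) le_rfl) (ack_le_ack le_rfl h1)
    rw [ack_two] at h3
    show 2 * ack (k + 2) (k + 2) ≤ ack (k + 3) (k + 3)
    rw [h2]
    omega

theorem invAck_two_mul (n : ℕ) : invAck (2 * n) ≤ invAck n + 1 := by
  apply Nat.sInf_le
  show 2 * n ≤ ack (invAck n + 1) (invAck n + 1)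
  calc 2 * n ≤ 2 * ack (invAck n) (invAck n) := Nat.mul_le_mul_left 2 (invAck_spec n)
    _ ≤ _ := two_mul_ack_le _

/-! ## The system of a family of polytopes -/

variable {D : ℕ} (A : Polys D)

theorem card_idx : Fintype.card A.Idx = 2 * A.nvert := by
  unfold Polys.Idx Polys.nvert
  rw [Fintype.card_prod, Fintype.card_sigma, Fintype.card_bool, mul_comm]
  congr 1
  apply Finset.sum_congr rfl
  intro i _
  exact Fintype.card_coe _

theorem full_sys (R : Fin (D + 1) → ℝ) : (A.sys R).Full := by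
  rintro ⟨i, s⟩
  obtain ⟨v, hv⟩ := A.nonempty i
  exact ⟨(⟨i, ⟨v, hv⟩⟩, s), rfl⟩

theorem full_shift (R : Fin (D + 1) → ℝ) (δ : A.Idx → ℝ) (η : Fin (D + 1) × Bool → ℝ) :
    ((A.sys R).shift δ η).Full := full_sys A R

theorem bx_eq (R : Fin (D + 1) → ℝ) (k : Fin (D + 1) × Bool) (q : Fin (D + 1) → ℝ) :
    (A.sys R).bx k q = (if k.2 then 1 else -1) * q k.1 + R k.1 := by
  unfold Sys.bx Polys.sys
  simp only
  congr 1
  simp [dotProduct]

theorem bx_shift_eq (R : Fin (D + 1) → ℝ) (δ : A.Idx → ℝ) (η : Fin (D + 1) × Bool → ℝ)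
    (k : Fin (D + 1) × Bool) (q : Fin (D + 1) → ℝ) :
    ((A.sys R).shift δ η).bx k q = (if k.2 then 1 else -1) * q k.1 + R k.1 + η k := by
  have : ((A.sys R).shift δ η).bx k q = (A.sys R).bx k q + η k := by
    unfold Sys.bx Sys.shift
    simp only
    ring
  rw [this, bx_eq]

theorem h_shift_eq (R : Fin (D + 1) → ℝ) (δ : A.Idx → ℝ) (η : Fin (D + 1) × Bool → ℝ)
    (v : A.Idx) (q : Fin (D + 1) → ℝ) :
    ((A.sys R).shift δ η).h v q = (if v.2 then (1 : ℝ) else -1) *
      (∑ j : Fin D, q j.castSucc * (v.1.2 : Fin (D + 1) → ℝ) j.castSucc + q (Fin.last D)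
        - (v.1.2 : Fin (D + 1) → ℝ) (Fin.last D)) + δ v := by
  unfold Sys.h Sys.shift Polys.sys
  simp only
  rw [smul_dotProduct, smul_eq_mul]
  have : (fun i => if i = Fin.last D then (1 : ℝ) else (v.1.2 : Fin (D + 1) → ℝ) i) ⬝ᵥ q =
      ∑ j : Fin D, q j.castSucc * (v.1.2 : Fin (D + 1) → ℝ) j.castSucc + q (Fin.last D) := by
    rw [dotProduct, Fin.sum_univ_castSucc]
    congr 1
    · apply Finset.sum_congr rfl
      intro j _
      rw [if_neg (Fin.castSucc_lt_last j).ne, mul_comm]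
    · simp
  rw [this]
  ring

theorem bdd_shift (R : Fin (D + 1) → ℝ) (δ : A.Idx → ℝ) (η : Fin (D + 1) × Bool → ℝ) :
    ((A.sys R).shift δ η).Bdd := by
  refine ⟨∑ i, |R i| + ∑ k, |η k|, fun q hq i => ?_⟩
  have h1 := hq (i, true)
  have h2 := hq (i, false)
  rw [bx_shift_eq] at h1 h2
  simp only [if_true, Bool.false_eq_true, if_false] at h1 h2
  have hR : |R i| ≤ ∑ i, |R i| :=
    Finset.single_le_sum (f := fun i => |R i|) (fun j _ => abs_nonneg _) (Finset.mem_univ i)
  have hη : ∀ k, |η k| ≤ ∑ k, |η k| := fun k =>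
    Finset.single_le_sum (f := fun k => |η k|) (fun j _ => abs_nonneg _) (Finset.mem_univ k)
  have h3 := hη (i, true)
  have h4 := hη (i, false)
  have h5 := le_abs_self (R i)
  have h6 := le_abs_self (η (i, true))
  have h7 := le_abs_self (η (i, false))
  rw [abs_le]
  constructor <;> linarith

theorem vert_shift (R : Fin (D + 1) → ℝ) (δ : A.Idx → ℝ) (η : Fin (D + 1) × Bool → ℝ) :
    ((A.sys R).shift δ η).Vert (Fin.last D) := by
  refine ⟨fun l => if l.2 then 1 else -1, fun l => ?_, fun v => ?_⟩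
  · rcases l with ⟨i, _ | _⟩ <;> simp
  · rcases hb : v.2 with _ | _
    · simp [Sys.shift, Polys.sys, hb]
    · simp [Sys.shift, Polys.sys, hb]

/-- The heights that occur. -/
noncomputable def bigN (M : ℝ) : ℝ :=
  ∑ v : A.Idx, (|(v.1.2 : Fin (D + 1) → ℝ) (Fin.last D)| +
    ∑ j : Fin D, (M + 1) * |(v.1.2 : Fin (D + 1) → ℝ) j.castSucc|)

theorem tall_shift (M N : ℝ) (hM : 0 ≤ M) (hN : bigN A M + 1 ≤ N)
    (δ : A.Idx → ℝ) (η : Fin (D + 1) × Bool → ℝ)
    (hδ : ∀ v, |δ v| ≤ 1) (hη0 : ∀ k, 0 < η k) (hη1 : ∀ k, η k ≤ 1) :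
    ((A.sys fun i => if i = Fin.last D then N else M).shift δ η).Tall (Fin.last D) := by
  intro q q' hq hqq' hv k
  obtain ⟨v, hv⟩ := hv
  rw [bx_shift_eq]
  by_cases hk : k.1 = Fin.last D
  · rw [h_shift_eq] at hv
    have hj : ∀ j : Fin D, |q' j.castSucc| ≤ M + 1 := by
      intro j
      rw [hqq' _ (Fin.castSucc_lt_last j).ne]
      have h1 := hq (j.castSucc, true)
      have h2 := hq (j.castSucc, false)
      rw [bx_shift_eq] at h1 h2
      simp only [if_true, Bool.false_eq_true, if_false] at h1 h2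
      rw [if_neg (Fin.castSucc_lt_last j).ne] at h1 h2
      have h3 := hη1 (j.castSucc, true)
      have h4 := hη1 (j.castSucc, false)
      rw [abs_le]
      constructor <;> linarith
    have hs : |∑ j : Fin D, q' j.castSucc * (v.1.2 : Fin (D + 1) → ℝ) j.castSucc| ≤
        ∑ j : Fin D, (M + 1) * |(v.1.2 : Fin (D + 1) → ℝ) j.castSucc| := by
      refine (Finset.abs_sum_le_sum_abs _ _).trans (Finset.sum_le_sum fun j _ => ?_)
      rw [abs_mul]
      exact mul_le_mul_of_nonneg_right (hj j) (abs_nonneg _)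
    have hv2 : |(v.1.2 : Fin (D + 1) → ℝ) (Fin.last D)| +
        ∑ j : Fin D, (M + 1) * |(v.1.2 : Fin (D + 1) → ℝ) j.castSucc| ≤ bigN A M := by
      unfold bigN
      exact Finset.single_le_sum (f := fun v : A.Idx => |(v.1.2 : Fin (D + 1) → ℝ) (Fin.last D)| +
        ∑ j : Fin D, (M + 1) * |(v.1.2 : Fin (D + 1) → ℝ) j.castSucc|)
        (fun w _ => add_nonneg (abs_nonneg _) (Finset.sum_nonneg fun j _ =>
          mul_nonneg (by linarith) (abs_nonneg _))) (Finset.mem_univ v)
    have hlast : |q' (Fin.last D)| ≤ N := by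
      have e1 := hδ v
      rw [abs_le] at e1 hs ⊢
      have e2 := le_abs_self ((v.1.2 : Fin (D + 1) → ℝ) (Fin.last D))
      have e3 := neg_abs_le ((v.1.2 : Fin (D + 1) → ℝ) (Fin.last D))
      rcases hb : v.2 with _ | _
      · rw [hb] at hv
        simp only [Bool.false_eq_true, if_false] at hv
        constructor <;> linarith [hs.1, hs.2, e1.1, e1.2]
      · rw [hb] at hv
        simp only [if_true] at hv
        constructor <;> linarith [hs.1, hs.2, e1.1, e1.2]
    rw [hk, if_pos rfl]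
    have e4 := hη0 k
    rw [abs_le] at hlast
    rcases k.2 with _ | _
    · simp only [Bool.false_eq_true, if_false]
      linarith [hlast.1, hlast.2]
    · simp only [if_true]
      linarith [hlast.1, hlast.2]
  · have h1 := hq k
    rw [bx_shift_eq] at h1
    rw [hqq' _ hk]
    exact h1

/-- Packet T2. -/
theorem finalPacket : FinalPacket := by
  intro hGP hTr hFT hMB D hD
  obtain ⟨C, hC⟩ := hMB D hD
  refine ⟨C * 3 ^ D * 3, fun A hA => ?_⟩
  refine ⟨(hFT D A 0).1, ?_⟩
  -- the points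
  set T : Set ((Fin A.m × Bool → Finset A.Idx) × Finset (Fin A.m × Bool)) :=
    (A.sys 0).typ '' {q | ∀ l, ¬ (A.sys 0).In l q} with hT
  obtain ⟨s', hs', hbij⟩ := Set.exists_subset_bijOn {q | ∀ l, ¬ (A.sys 0).In l q} (A.sys 0).typ
  have hsfin : s'.Finite := by
    refine Set.Finite.of_finite_image ?_ hbij.injOn
    exact Set.toFinite _
  set P : Finset (Fin (D + 1) → ℝ) := hsfin.toFinset with hP
  have hPcoe : (P : Set (Fin (D + 1) → ℝ)) = s' := by rw [hP, Set.Finite.coe_toFinset]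
  have hPcard : T.ncard = P.card := by
    rw [← Set.ncard_coe_finset P, hPcoe, hT, ← hbij.image_eq,
      hbij.injOn.ncard_image]
  -- the box
  set M : ℝ := 1 + ∑ p ∈ P, ∑ i, |p i| with hM
  have hM1 : 1 ≤ M := by
    have : 0 ≤ ∑ p ∈ P, ∑ i, |p i| :=
      Finset.sum_nonneg fun p _ => Finset.sum_nonneg fun i _ => abs_nonneg _
    linarith
  have hpM : ∀ p ∈ P, ∀ i, |p i| < M := by
    intro p hp i
    have h1 : |p i| ≤ ∑ i, |p i| :=
      Finset.single_le_sum (f := fun i => |p i|) (fun j _ => abs_nonneg _) (Finset.mem_univ i)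
    have h2 : ∑ i, |p i| ≤ ∑ p ∈ P, ∑ i, |p i| :=
      Finset.single_le_sum (f := fun p : Fin (D + 1) → ℝ => ∑ i, |p i|)
        (fun j _ => Finset.sum_nonneg fun i _ => abs_nonneg _) hp
    linarith
  have hbn : 0 ≤ bigN A M := by
    unfold bigN
    exact Finset.sum_nonneg fun w _ => add_nonneg (abs_nonneg _) (Finset.sum_nonneg fun j _ =>
          mul_nonneg (by linarith) (abs_nonneg _))
  set N : ℝ := bigN A M + 1 + M with hN
  set R : Fin (D + 1) → ℝ := fun i => if i = Fin.last D then N else M with hR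
  have hPbox : ∀ p ∈ P, (∀ k, 0 < (A.sys R).bx k p) ∧ ∀ l, ¬ (A.sys R).In l p := by
    intro p hp
    constructor
    · intro k
      rw [bx_eq]
      have h1 := hpM p hp k.1
      have h2 : M ≤ R k.1 := by
        simp only [hR]
        split_ifs
        · linarith
        · exact le_rfl
      rw [abs_lt] at h1
      rcases k.2 with _ | _
      · simp only [Bool.false_eq_true, if_false]
        linarith [h1.1, h1.2]
      · simp only [if_true]
        linarith [h1.1, h1.2]
    · have : p ∈ s' := by rw [← hPcoe]; exact hp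
      exact hs' this
  have hinj : Set.InjOn (A.sys R).typ P := by
    rw [hPcoe]
    exact hbij.injOn
  obtain ⟨ε, hε, hf⟩ := hTr (D + 1) A.Idx (Fin A.m × Bool) (Fin (D + 1) × Bool) (A.sys R)
    (full_sys A R) P hPbox hinj
  obtain ⟨δ, η, hδ, hη, hgp⟩ := hGP (D + 1) A.Idx (Fin A.m × Bool) (Fin (D + 1) × Bool) (A.sys R)
    (min ε 1) (lt_min hε one_pos)
  obtain ⟨f, hf1, hf2⟩ := hf δ η
    (fun v => ⟨by have := (hδ v).1; have := min_le_left ε 1; linarith, (hδ v).2⟩)
    (fun k => ⟨(hη k).1, lt_of_lt_of_le (hη k).2 (min_le_left _ _)⟩)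
  have hm1 := min_le_right ε 1
  have hmain := hC A.Idx (Fin A.m × Bool) ((A.sys R).shift δ η) (Fin.last D) (full_shift A R δ η)
    hgp (bdd_shift A R δ η) (vert_shift A R δ η)
    (tall_shift A M N (by linarith) (by linarith) δ η
      (fun v => by
        have h1 := (hδ v).1
        have h2 := (hδ v).2
        rw [abs_le]
        constructor <;> linarith)
      (fun k => (hη k).1) (fun k => by have := (hη k).2; linarith))
  have hcard : P.card ≤ (((A.sys R).shift δ η).typ ''
      {q | ((A.sys R).shift δ η).Box q ∧ ∀ l, ¬ ((A.sys R).shift δ η).In l q}).ncard := by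
    rw [← Finset.card_image_of_injOn hf2, ← Set.ncard_coe_finset]
    refine Set.ncard_le_ncard ?_ (Set.toFinite _)
    intro x hx
    rw [Finset.coe_image] at hx
    obtain ⟨p, hp, rfl⟩ := hx
    exact ⟨f p, hf1 p hp, rfl⟩
  have hfaces : A.faces.ncard ≤ P.card := by
    rw [← hPcard]
    exact (hFT D A 0).2
  rw [card_idx] at hmain
  have hn3 : 2 * A.nvert + 1 ≤ 3 * A.nvert := by omega
  have hia : invAck (2 * A.nvert) + 1 ≤ 3 * invAck A.nvert := by
    have h1 := invAck_two_mul A.nvert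
    have h2 := invAck_pos hA
    omega
  calc A.faces.ncard ≤ P.card := hfaces
    _ ≤ _ := hcard
    _ ≤ C * (2 * A.nvert + 1) ^ (D + 1 - 1) * (invAck (2 * A.nvert) + 1) := hmain
    _ ≤ C * (3 * A.nvert) ^ D * (3 * invAck A.nvert) := by
      rw [Nat.add_sub_cancel]
      gcongr
    _ = C * 3 ^ D * 3 * A.nvert ^ D * invAck A.nvert := by
      rw [mul_pow]; ring

end Pool.Agent.Helper11.Trans.FinalT2
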