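import Pool.Agent.Helper11.Trans.Comb

/-!
# Packet D: structure of pure vertices with two active groups
-/

namespace Pool.Agent.Helper11.Trans

set_option linter.unusedSectionVars false

open Finset Classical Matrix Pool.Agent.Helper39.Trans

variable {n : ℕ} {ι Λ κ : Type} [Fintype ι] [Fintype Λ] [Fintype κ] (A : Sys n ι Λ κ)

theorem mem_fib {l : Λ} {v : ι} : v ∈ A.fib l ↔ A.grp v = l := by simp [Sys.fib]

theorem mem_W {l : Λ} {q : Fin n → ℝ} {v : ι} :
    v ∈ A.W l q ↔ A.grp v = l ∧ ∀ w, A.grp w = l → A.h v q ≤ A.h w q := by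
  unfold Sys.W
  rw [Finset.mem_filter, mem_fib]
  constructor
  · rintro ⟨h1, h2⟩
    exact ⟨h1, fun w hw => h2 w ((mem_fib A).mpr hw)⟩
  · rintro ⟨h1, h2⟩
    exact ⟨h1, fun w hw => h2 w ((mem_fib A).mp hw)⟩

theorem W_nonempty (hF : A.Full) (l : Λ) (q : Fin n → ℝ) : (A.W l q).Nonempty := by
  obtain ⟨v0, hv0⟩ := hF l
  obtain ⟨v, hv, hmin⟩ := Finset.exists_min_image (A.fib l) (fun v => A.h v q)
    ⟨v0, (mem_fib A).mpr hv0⟩
  exact ⟨v, (mem_W A).mpr ⟨(mem_fib A).mp hv, fun w hw => hmin w ((mem_fib A).mpr hw)⟩⟩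

theorem W_eq_val {l : Λ} {q : Fin n → ℝ} {v w : ι} (hv : v ∈ A.W l q) (hw : w ∈ A.W l q) :
    A.h v q = A.h w q := by
  rw [mem_W] at hv hw
  exact le_antisymm (hv.2 w hw.1) (hw.2 v hv.1)

/-- The function `v` is minimal in its group at `q`, and zero. -/
def Actv (q : Fin n → ℝ) (v : ι) : Prop := v ∈ A.W (A.grp v) q ∧ A.h v q = 0

theorem mem_Ig_iff {q : Fin n → ℝ} {l : Λ} : l ∈ A.Ig q ↔ A.Act l q := by simp [Sys.Ig]

theorem mem_Ig {q : Fin n → ℝ} {l : Λ} : l ∈ A.Ig q ↔ ∃ v, Actv A q v ∧ A.grp v = l := by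
  rw [mem_Ig_iff]
  unfold Sys.Act Actv
  constructor
  · rintro ⟨v, hv, h0⟩
    have := ((mem_W A).mp hv).1
    exact ⟨v, ⟨by rw [this]; exact hv, h0⟩, this⟩
  · rintro ⟨v, ⟨hv, h0⟩, rfl⟩
    exact ⟨v, hv, h0⟩

theorem mem_Jg {q : Fin n → ℝ} {l : Λ} : l ∈ A.Jg q ↔ 2 ≤ (A.W l q).card := by
  simp [Sys.Jg]

/-- The functions taking part in ties. -/
noncomputable def key (q : Fin n → ℝ) : Finset ι :=
  univ.filter fun v => v ∈ A.W (A.grp v) q ∧ A.grp v ∈ A.Jg q

theorem mem_key {q : Fin n → ℝ} {v : ι} :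
    v ∈ key A q ↔ v ∈ A.W (A.grp v) q ∧ A.grp v ∈ A.Jg q := by simp [key]

theorem Jg_eq_image {q : Fin n → ℝ} : A.Jg q = (key A q).image A.grp := by
  ext l
  rw [Finset.mem_image]
  constructor
  · intro hl
    have h2 := (mem_Jg A).mp hl
    obtain ⟨v, hv⟩ := Finset.card_pos.mp (by omega : 0 < (A.W l q).card)
    have hg := ((mem_W A).mp hv).1
    exact ⟨v, (mem_key A).mpr ⟨by rw [hg]; exact hv, by rw [hg]; exact hl⟩, hg⟩
  · rintro ⟨v, hv, rfl⟩
    exact ((mem_key A).mp hv).2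

theorem Jg_eq_of_key {q q' : Fin n → ℝ} (h : key A q = key A q') : A.Jg q = A.Jg q' := by
  rw [Jg_eq_image, Jg_eq_image, h]

/-- Facts about a pure vertex with two active groups. -/
structure Pure2 (q : Fin n → ℝ) : Prop where
  box : A.Box q
  cntn : A.cnt univ q = n
  cardJ : (A.Jg q).card + 2 = n
  cardI : (A.Ig q).card = 2
  disj : Disjoint (A.Ig q) (A.Jg q)
  bt : A.Bt q = ∅
  card2 : ∀ l, (A.W l q).card ≤ 2

theorem pure2_of_mem {G S : Finset Λ} {q : Fin n → ℝ} (hq : q ∈ A.PureSet 1 G S) :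
    Pure2 A q := by
  obtain ⟨⟨hbox, hcnt⟩, hD, hI, -, -⟩ := hq
  have hI2 : (A.Ig q).card = 2 := hI
  have h1 : (A.Dg q).card + (A.Ig q ∩ A.Jg q).card = (A.Ig q).card + (A.Jg q).card :=
    Finset.card_union_add_card_inter _ _
  have hcnt' : ∑ l, ((A.W l q).card - 1) + (A.Ig q).card + (A.Bt q).card = n := hcnt
  have hle : ∀ l ∈ (univ : Finset Λ), (if l ∈ A.Jg q then 1 else 0) ≤ (A.W l q).card - 1 := by
    intro l _
    split_ifs with hl
    · have := (mem_Jg A).mp hl
      omega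
    · omega
  have hsum : ∑ l, (if l ∈ A.Jg q then 1 else 0) = (A.Jg q).card := by
    rw [Finset.sum_boole]
    simp
  have hge : (A.Jg q).card ≤ ∑ l, ((A.W l q).card - 1) := by
    rw [← hsum]
    exact Finset.sum_le_sum hle
  have hinter : (A.Ig q ∩ A.Jg q).card = 0 := by omega
  have hbt : (A.Bt q).card = 0 := by omega
  have heq : ∑ l, (if l ∈ A.Jg q then 1 else 0) = ∑ l, ((A.W l q).card - 1) := by
    rw [hsum]
    omega
  have hall := (Finset.sum_eq_sum_iff_of_le hle).mp heq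
  refine ⟨hbox, hcnt, by omega, hI2, ?_, Finset.card_eq_zero.mp hbt, ?_⟩
  · rw [Finset.disjoint_iff_inter_eq_empty]
    exact Finset.card_eq_zero.mp hinter
  · intro l
    have := hall l (Finset.mem_univ l)
    split_ifs at this <;> omega

variable {A}

theorem Pure2.W_one {q : Fin n → ℝ} (h : Pure2 A q) {l : Λ} (hl : l ∈ A.Ig q) {v w : ι}
    (hv : v ∈ A.W l q) (hw : w ∈ A.W l q) : v = w := by
  by_contra hne
  have h2 : 2 ≤ (A.W l q).card := by
    have : ({v, w} : Finset ι) ⊆ A.W l q := by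
      intro x hx
      rw [Finset.mem_insert, Finset.mem_singleton] at hx
      rcases hx with rfl | rfl <;> assumption
    calc 2 = ({v, w} : Finset ι).card := (Finset.card_pair hne).symm
      _ ≤ _ := Finset.card_le_card this
  exact Finset.disjoint_left.mp h.disj hl ((mem_Jg A).mpr h2)

theorem Pure2.exists_pair {q : Fin n → ℝ} (h : Pure2 A q) : ∃ x y : ι, Actv A q x ∧ Actv A q y ∧
    A.grp x ≠ A.grp y ∧ ∀ v, Actv A q v → v = x ∨ v = y := by
  obtain ⟨l1, l2, hne, hI⟩ := Finset.card_eq_two.mp h.cardI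
  have h1 : l1 ∈ A.Ig q := by rw [hI]; simp
  have h2 : l2 ∈ A.Ig q := by rw [hI]; simp
  obtain ⟨x, hx, hx'⟩ := (mem_Ig A).mp h1
  obtain ⟨y, hy, hy'⟩ := (mem_Ig A).mp h2
  refine ⟨x, y, hx, hy, by rw [hx', hy']; exact hne, ?_⟩
  intro v hv
  have hvI : A.grp v ∈ A.Ig q := (mem_Ig A).mpr ⟨v, hv, rfl⟩
  have : A.grp v = l1 ∨ A.grp v = l2 := by
    rw [hI] at hvI
    simpa using hvI
  rcases this with h3 | h3
  · left
    apply h.W_one h1
    · rw [← h3]; exact hv.1
    · rw [← hx']; exact hx.1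
  · right
    apply h.W_one h2
    · rw [← h3]; exact hv.1
    · rw [← hy']; exact hy.1

theorem mem_key_of_ne {q : Fin n → ℝ} {l : Λ} {v w : ι} (hv : v ∈ A.W l q) (hw : w ∈ A.W l q)
    (hne : v ≠ w) : v ∈ key A q := by
  have hg := ((mem_W A).mp hv).1
  rw [mem_key, hg]
  refine ⟨hv, (mem_Jg A).mpr ?_⟩
  have : ({v, w} : Finset ι) ⊆ A.W l q := by
    intro x hx
    rw [Finset.mem_insert, Finset.mem_singleton] at hx
    rcases hx with rfl | rfl <;> assumption
  calc 2 = ({v, w} : Finset ι).card := (Finset.card_pair hne).symm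
    _ ≤ _ := Finset.card_le_card this

/-- A direction that preserves the ties of the key and the two active functions is zero. -/
theorem ker_zero (hLin : LinFacts n κ) (hF : A.Full) (hGP : A.GP) {q : Fin n → ℝ}
    (h : Pure2 A q) {x y : ι} (hx : Actv A q x) (hy : Actv A q y) (hxy : A.grp x ≠ A.grp y)
    {D : Fin n → ℝ}
    (hD : ∀ v ∈ key A q, ∀ w ∈ key A q, A.grp v = A.grp w → A.a v ⬝ᵥ D = A.a w ⬝ᵥ D)
    (hDx : A.a x ⬝ᵥ D = 0) (hDy : A.a y ⬝ᵥ D = 0) : D = 0 := by
  refine (hLin ι Λ A hF hGP univ q h.box).2.1 h.cntn D ⟨?_, ?_, ?_⟩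
  · intro l _ v hv w hw
    by_cases hne : v = w
    · rw [hne]
    · have hgv := ((mem_W A).mp hv).1
      have hgw := ((mem_W A).mp hw).1
      exact hD v (mem_key_of_ne hv hw hne) w (mem_key_of_ne hw hv (Ne.symm hne))
        (by rw [hgv, hgw])
  · intro l _ hl v hv
    have hlI : l ∈ A.Ig q := by simp [Sys.Ig, hl]
    have hgv := ((mem_W A).mp hv).1
    have hxI : A.grp x ∈ A.Ig q := (mem_Ig A).mpr ⟨x, hx, rfl⟩
    have hyI : A.grp y ∈ A.Ig q := (mem_Ig A).mpr ⟨y, hy, rfl⟩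
    have hor : l = A.grp x ∨ l = A.grp y := by
      by_contra hcon
      push Not at hcon
      have hsub : ({l, A.grp x, A.grp y} : Finset Λ) ⊆ A.Ig q := by
        intro z hz
        simp only [Finset.mem_insert, Finset.mem_singleton] at hz
        rcases hz with rfl | rfl | rfl <;> assumption
      have hc := Finset.card_le_card hsub
      rw [h.cardI] at hc
      have h3 : ({l, A.grp x, A.grp y} : Finset Λ).card = 3 := by
        rw [Finset.card_insert_of_notMem (by simp [hcon.1, hcon.2]), Finset.card_pair hxy]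
      omega
    rcases hor with h1 | h1
    · have : v = x := h.W_one hlI hv (by rw [h1]; exact hx.1)
      rw [this]; exact hDx
    · have : v = y := h.W_one hlI hv (by rw [h1]; exact hy.1)
      rw [this]; exact hDy
  · intro k hk
    rw [h.bt] at hk
    simp at hk

theorem h_add (v : ι) (q D : Fin n → ℝ) : A.h v (q + D) = A.h v q + A.a v ⬝ᵥ D := by
  unfold Sys.h
  rw [dotProduct_add]
  ring

theorem h_sub (v : ι) (q q' : Fin n → ℝ) : A.a v ⬝ᵥ (q' - q) = A.h v q' - A.h v q := by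
  unfold Sys.h
  rw [dotProduct_sub]
  ring

/-- Two pure vertices with the same key and the same pair of active functions coincide. -/
theorem eq_of_symbols (hLin : LinFacts n κ) (hF : A.Full) (hGP : A.GP) {q q' : Fin n → ℝ}
    (h : Pure2 A q) (hk : key A q = key A q') {x y : ι} (hx : Actv A q x)
    (hy : Actv A q y) (hxy : A.grp x ≠ A.grp y) (hx' : Actv A q' x) (hy' : Actv A q' y) :
    q = q' := by
  have : q' - q = 0 := by
    apply ker_zero hLin hF hGP h hx hy hxy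
    · intro v hv w hw hvw
      rw [h_sub, h_sub]
      have hv1 := ((mem_key A).mp hv).1
      have hw1 := ((mem_key A).mp hw).1
      rw [hvw] at hv1
      have e1 := W_eq_val A hv1 hw1
      rw [hk] at hv hw
      have hv2 := ((mem_key A).mp hv).1
      have hw2 := ((mem_key A).mp hw).1
      rw [hvw] at hv2
      have e2 := W_eq_val A hv2 hw2
      rw [e1, e2]
    · rw [h_sub, hx.2, hx'.2, sub_zero]
    · rw [h_sub, hy.2, hy'.2, sub_zero]
  exact (sub_eq_zero.mp this).symm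

end Pool.Agent.Helper11.Trans
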