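import Pool.Agent.Helper11.Trans.Pure

/-!
# Packet D: one vertical strip
-/

namespace Pool.Agent.Helper11.Trans

set_option linter.unusedSectionVars false

open Finset Classical Matrix Pool.Agent.Helper39.Trans

variable {n : ℕ} {ι Λ κ : Type} [Fintype ι] [Fintype Λ] [Fintype κ] {A : Sys n ι Λ κ}

/-- The subfamily of the ties and one active group has one constraint too few. -/
theorem cnt_F {q : Fin n → ℝ} (h : Pure2 A q) {v : ι} (hv : Actv A q v) :
    A.cnt (insert (A.grp v) (A.Jg q)) q + 1 = n := by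
  have hvI : A.grp v ∈ A.Ig q := (mem_Ig A).mpr ⟨v, hv, rfl⟩
  have hvJ : A.grp v ∉ A.Jg q := Finset.disjoint_left.mp h.disj hvI
  have hW1 : (A.W (A.grp v) q).card - 1 = 0 := by
    have : ¬ 2 ≤ (A.W (A.grp v) q).card := fun h2 => hvJ ((mem_Jg A).mpr h2)
    omega
  have hsum : ∑ l ∈ A.Jg q, ((A.W l q).card - 1) = (A.Jg q).card := by
    rw [Finset.card_eq_sum_ones]
    apply Finset.sum_congr rfl
    intro l hl
    have h1 := (mem_Jg A).mp hl
    have h2 := h.card2 l
    omega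
  have hfil : ((insert (A.grp v) (A.Jg q)).filter fun l => A.Act l q) = {A.grp v} := by
    ext l
    rw [Finset.mem_filter, Finset.mem_insert, Finset.mem_singleton]
    constructor
    · rintro ⟨h1 | h1, h2⟩
      · exact h1
      · exact absurd h1 (Finset.disjoint_left.mp h.disj ((mem_Ig_iff A).mpr h2))
    · rintro rfl
      exact ⟨Or.inl rfl, (mem_Ig_iff A).mp hvI⟩
  unfold Sys.cnt
  rw [Finset.sum_insert hvJ, hW1, hsum, hfil, h.bt]
  have := h.cardJ
  simp
  omega

/-- The number of pure vertices in one strip. -/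
theorem strip {C : ℕ} (hC : ∀ (σ : Type) (L : List σ), L.IsChain (· ≠ ·) → Alt5Free L →
    L.length ≤ C * L.toFinset.card * (invAck L.toFinset.card + 1))
    (hLin : LinFacts n κ) (hF : A.Full) (hGP : A.GP) {t : Fin n} (hV : A.Vert t)
    (Q : Finset (Fin n → ℝ)) (φ T : Finset ι) (hQ : ∀ q ∈ Q, Pure2 A q)
    (hkey : ∀ q ∈ Q, key A q = φ) (hT : ∀ q ∈ Q, ∀ v, Actv A q v → v ∈ T)
    (hneg : ∀ q ∈ Q, ∀ q' ∈ Q, ∀ v, Actv A q v → v ∈ A.W (A.grp v) q' → A.h v q' ≤ 0) :
    Q.card ≤ 8 * (C * T.card * (invAck T.card + 1)) := by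
  rcases Q.eq_empty_or_nonempty with rfl | ⟨q0, hq0⟩
  · simp
  obtain ⟨sg, hsg, ha⟩ := hV
  have P0 := hQ q0 hq0
  obtain ⟨v1, w1, hv1, hw1, hvw1, -⟩ := P0.exists_pair
  set F : Finset Λ := insert (A.grp v1) (A.Jg q0) with hFdef
  have hcF : A.cnt F q0 + 1 = n := cnt_F P0 hv1
  obtain ⟨d0, hd0, hker, huniq⟩ := (hLin ι Λ A hF hGP F q0 P0.box).2.2.2.2 hcF
  set e : Fin n → ℝ := Pi.single t 1 with he
  have hae : ∀ v, A.a v ⬝ᵥ e = sg (A.grp v) := by
    intro v
    rw [he, dotProduct_single_one, ha]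
  have hsg2 : ∀ l, sg l * sg l = 1 := by
    intro l
    rcases hsg l with h | h <;> rw [h] <;> norm_num
  have hv1F : A.grp v1 ∈ F := Finset.mem_insert_self _ _
  have hd0v1 : A.a v1 ⬝ᵥ d0 = 0 :=
    hker.2.1 (A.grp v1) hv1F ((mem_Ig_iff A).mp ((mem_Ig A).mpr ⟨v1, hv1, rfl⟩)) v1 hv1.1
  -- ties are preserved by d0 and e
  have htie0 : ∀ v ∈ φ, ∀ w ∈ φ, A.grp v = A.grp w → A.a v ⬝ᵥ d0 = A.a w ⬝ᵥ d0 := by
    intro v hv w hw hvw
    rw [← hkey q0 hq0] at hv hw
    have h1 := (mem_key A).mp hv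
    have h2 := (mem_key A).mp hw
    refine hker.1 (A.grp w) (Finset.mem_insert_of_mem h2.2) v ?_ w h2.1
    rw [← hvw]; exact h1.1
  -- coordinates
  have hcoord : ∀ q ∈ Q, ∃ s c : ℝ, q = q0 + (s • d0 + c • e) := by
    intro q hq
    have Pq := hQ q hq
    set c : ℝ := sg (A.grp v1) * (A.a v1 ⬝ᵥ (q - q0)) with hc
    obtain ⟨s, hs⟩ := huniq ((q - q0) - c • e) (by
      refine ⟨?_, ?_, ?_⟩
      · intro l hl v hv w hw
        by_cases hvw : v = w
        · rw [hvw]
        have hvk : v ∈ key A q0 := mem_key_of_ne hv hw hvw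
        have hwk : w ∈ key A q0 := mem_key_of_ne hw hv (Ne.symm hvw)
        rw [hkey q0 hq0, ← hkey q hq] at hvk hwk
        have hgv := ((mem_W A).mp hv).1
        have hgw := ((mem_W A).mp hw).1
        have h1 := ((mem_key A).mp hvk).1
        have h2 := ((mem_key A).mp hwk).1
        rw [hgv] at h1
        rw [hgw] at h2
        have hexp : ∀ u, A.a u ⬝ᵥ ((q - q0) - c • e) =
            (A.h u q - A.h u q0) - c * sg (A.grp u) := by
          intro u
          rw [dotProduct_sub, dotProduct_smul, hae, h_sub, smul_eq_mul]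
        rw [hexp, hexp, hgv, hgw, W_eq_val A h1 h2, W_eq_val A hv hw]
      · intro l hl hact v hv
        have hlI : l ∈ A.Ig q0 := (mem_Ig_iff A).mpr hact
        have hl1 : l = A.grp v1 := by
          rcases Finset.mem_insert.mp hl with h | h
          · exact h
          · exact absurd h (Finset.disjoint_left.mp P0.disj hlI)
        have hvv : v = v1 := P0.W_one hlI hv (by rw [hl1]; exact hv1.1)
        rw [hvv, dotProduct_sub, dotProduct_smul, hae, hc, smul_eq_mul]
        have := hsg2 (A.grp v1)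
        linear_combination (-(A.a v1 ⬝ᵥ (q - q0))) * this
      · intro k hk
        rw [P0.bt] at hk
        simp at hk)
    refine ⟨s, c, ?_⟩
    have : q - q0 = s • d0 + c • e := by rw [← hs]; abel
    rw [← this]; abel
  choose! s c hsc using hcoord
  set η : ι → ℝ := fun v => A.h v q0 with hη
  set α : ι → ℝ := fun v => A.a v ⬝ᵥ d0 with hα
  have hval : ∀ q ∈ Q, ∀ v, A.h v q = η v + s q * α v + c q * sg (A.grp v) := by
    intro q hq v
    conv_lhs => rw [hsc q hq]
    rw [h_add, dotProduct_add, dotProduct_smul, dotProduct_smul, hae]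
    simp only [hη, hα, smul_eq_mul]
    ring
  -- minimality
  have hmin : ∀ q ∈ Q, ∀ v, v ∈ A.W (A.grp v) q ↔
      ∀ w, A.grp w = A.grp v → η v + s q * α v ≤ η w + s q * α w := by
    intro q hq v
    rw [mem_W]
    constructor
    · rintro ⟨-, h⟩ w hw
      have := h w hw
      rw [hval q hq v, hval q hq w, hw] at this
      linarith
    · intro h
      refine ⟨rfl, fun w hw => ?_⟩
      rw [hval q hq v, hval q hq w, hw]
      have := h w hw
      linarith
  have hconv : ∀ q1 ∈ Q, ∀ q2 ∈ Q, ∀ q3 ∈ Q, s q1 ≤ s q2 → s q2 ≤ s q3 → ∀ v,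
      v ∈ A.W (A.grp v) q1 → v ∈ A.W (A.grp v) q3 → v ∈ A.W (A.grp v) q2 := by
    intro q1 h1 q2 h2 q3 h3 h12 h23 v hv1 hv3
    rw [hmin q1 h1] at hv1
    rw [hmin q3 h3] at hv3
    rw [hmin q2 h2]
    intro w hw
    have e1 := hv1 w hw
    have e3 := hv3 w hw
    by_contra hcon
    push Not at hcon
    -- (α v - α w) has a sign
    rcases le_total (α v) (α w) with h | h
    · nlinarith
    · nlinarith
  -- injectivity of s for a common sign
  have hinj : ∀ q ∈ Q, ∀ q' ∈ Q, ∀ v v', Actv A q v → Actv A q' v' →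
      sg (A.grp v) = sg (A.grp v') → s q = s q' → q = q' := by
    intro q hq q' hq' v v' hv hv' hsv hss
    have hvW : v ∈ A.W (A.grp v) q' := by
      rw [hmin q' hq', ← hss, ← hmin q hq]
      exact hv.1
    have hvW' : v' ∈ A.W (A.grp v') q := by
      rw [hmin q hq, hss, ← hmin q' hq']
      exact hv'.1
    have e1 := hneg q hq q' hq' v hv hvW
    have e2 := hneg q' hq' q hq v' hv' hvW'
    have e3 := hv.2
    have e4 := hv'.2
    rw [hval q' hq', ← hss] at e1
    rw [hval q hq, hsv.symm] at e2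
    rw [hval q hq] at e3
    rw [hval q' hq', ← hss, ← hsv] at e4
    have hcc : c q * sg (A.grp v) = c q' * sg (A.grp v) := by linarith
    have hcc' : c q = c q' := by
      have := hsg2 (A.grp v)
      calc c q = (c q * sg (A.grp v)) * sg (A.grp v) := by rw [mul_assoc, this, mul_one]
        _ = (c q' * sg (A.grp v)) * sg (A.grp v) := by rw [hcc]
        _ = c q' := by rw [mul_assoc, this, mul_one]
    rw [hsc q hq, hsc q' hq', hss, hcc']
  -- slopes
  have hslope : ∀ q ∈ Q, ∀ a b, a ≠ b → Actv A q a → Actv A q b →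
      sg (A.grp a) = sg (A.grp b) → α a ≠ α b := by
    intro q hq a b hab hA hB hs hαab
    have Pq := hQ q hq
    have hgab : A.grp a ≠ A.grp b := by
      intro h
      have hI : A.grp a ∈ A.Ig q := (mem_Ig A).mpr ⟨a, hA, rfl⟩
      exact hab (Pq.W_one hI hA.1 (by rw [h]; exact hB.1))
    have hz : d0 - (sg (A.grp a) * α a) • e = 0 := by
      apply ker_zero hLin hF hGP Pq hA hB hgab
      · intro v hv w hw hvw
        rw [hkey q hq] at hv hw
        rw [dotProduct_sub, dotProduct_sub, dotProduct_smul, dotProduct_smul, hae, hae, hvw,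
          htie0 v hv w hw hvw]
      · rw [dotProduct_sub, dotProduct_smul, hae, smul_eq_mul]
        have := hsg2 (A.grp a)
        change α a - _ = 0
        linear_combination (-(α a)) * this
      · rw [dotProduct_sub, dotProduct_smul, hae, smul_eq_mul, ← hs]
        have := hsg2 (A.grp a)
        change α b - _ = 0
        rw [← hαab]
        linear_combination (-(α a)) * this
    have hd : d0 = (sg (A.grp a) * α a) • e := sub_eq_zero.mp hz
    have h1 := hd0v1
    rw [hd, dotProduct_smul, hae, smul_eq_mul] at h1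
    have h2 : sg (A.grp a) * α a = 0 := by
      have h3 := hsg2 (A.grp v1)
      calc sg (A.grp a) * α a = (sg (A.grp a) * α a * sg (A.grp v1)) * sg (A.grp v1) := by
            rw [mul_assoc, h3, mul_one]
        _ = 0 := by rw [h1, zero_mul]
    rw [h2, zero_smul] at hd
    exact hd0 hd
  -- no alternations
  have halt : ∀ a b, a ≠ b → ∀ q1 ∈ Q, ∀ q2 ∈ Q, ∀ q3 ∈ Q, ∀ q4 ∈ Q, ∀ q5 ∈ Q,
      s q1 < s q2 → s q2 < s q3 → s q3 < s q4 → s q4 < s q5 → Actv A q1 a → Actv A q2 b →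
      Actv A q3 a → Actv A q4 b → Actv A q5 a → sg (A.grp a) = sg (A.grp b) → False := by
    intro a b hab q1 h1 q2 h2 q3 h3 q4 h4 q5 h5 s12 s23 s34 s45 a1 b2 a3 b4 a5 hs
    have ma2 := hconv q1 h1 q2 h2 q3 h3 s12.le s23.le a a1.1 a3.1
    have ma4 := hconv q3 h3 q4 h4 q5 h5 s34.le s45.le a a3.1 a5.1
    have mb3 := hconv q2 h2 q3 h3 q4 h4 s23.le s34.le b b2.1 b4.1
    have n2 := hneg q1 h1 q2 h2 a a1 ma2
    have n3 := hneg q2 h2 q3 h3 b b2 mb3
    have n4 := hneg q3 h3 q4 h4 a a3 ma4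
    have z2 := b2.2
    have z3 := a3.2
    have z4 := b4.2
    rw [hval q2 h2] at n2 z2
    rw [hval q3 h3] at n3 z3
    rw [hval q4 h4] at n4 z4
    rw [hs] at n2 z3 n4
    have g2 : (η a - η b) + s q2 * (α a - α b) ≤ 0 := by linarith
    have g3 : 0 ≤ (η a - η b) + s q3 * (α a - α b) := by linarith
    have g4 : (η a - η b) + s q4 * (α a - α b) ≤ 0 := by linarith
    have k1 : 0 ≤ (s q3 - s q2) * (α a - α b) := by linarith
    have k2 : (s q4 - s q3) * (α a - α b) ≤ 0 := by linarith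
    have l1 : 0 ≤ α a - α b := by
      by_contra hcon
      push Not at hcon
      have : 0 < s q3 - s q2 := by linarith
      nlinarith
    have l2 : α a - α b ≤ 0 := by
      by_contra hcon
      push Not at hcon
      have : 0 < s q4 - s q3 := by linarith
      nlinarith
    have hαab : α a = α b := by linarith
    have hB3 : Actv A q3 b := by
      refine ⟨mb3, ?_⟩
      rw [hval q3 h3]
      rw [hαab, sub_self, mul_zero, add_zero] at g3 g4
      have : η a = η b := by linarith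
      rw [← this, ← hαab]
      exact z3
    exact hslope q3 h3 a b hab a3 hB3 hs hαab
  -- the two symbols
  have hne : Nonempty ι := ⟨v1⟩
  have hpair : ∀ q ∈ Q, ∃ x y : ι, Actv A q x ∧ Actv A q y ∧ A.grp x ≠ A.grp y := by
    intro q hq
    obtain ⟨x, y, hx, hy, hxy, -⟩ := (hQ q hq).exists_pair
    exact ⟨x, y, hx, hy, hxy⟩
  choose! x y hx hy hxy using hpair
  have hclass : ∀ σ τ : ℝ, (Q.filter fun q => sg (A.grp (x q)) = σ ∧ sg (A.grp (y q)) = τ).card ≤
      2 * (C * T.card * (invAck T.card + 1)) := by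
    intro σ τ
    set V := Q.filter fun q => sg (A.grp (x q)) = σ ∧ sg (A.grp (y q)) = τ with hVdef
    have hVQ : ∀ q ∈ V, q ∈ Q := fun q hq => (Finset.mem_filter.mp hq).1
    have hVx : ∀ q ∈ V, sg (A.grp (x q)) = σ := fun q hq => (Finset.mem_filter.mp hq).2.1
    have hVy : ∀ q ∈ V, sg (A.grp (y q)) = τ := fun q hq => (Finset.mem_filter.mp hq).2.2
    apply class_bound hC V T s x y
    · intro q hq q' hq' hss
      exact hinj q (hVQ q hq) q' (hVQ q' hq') (x q) (x q') (hx q (hVQ q hq))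
        (hx q' (hVQ q' hq')) (by rw [hVx q hq, hVx q' hq']) hss
    · intro q hq
      exact hT q (hVQ q hq) _ (hx q (hVQ q hq))
    · intro q hq
      exact hT q (hVQ q hq) _ (hy q (hVQ q hq))
    · rintro q hq q' hq' hne ⟨e1, e2⟩
      apply hne
      have hqQ := hVQ q hq
      have hqQ' := hVQ q' hq'
      refine eq_of_symbols hLin hF hGP (hQ q hqQ) ?_ (hx q hqQ) (hy q hqQ) (hxy q hqQ) ?_ ?_
      · rw [hkey q hqQ, hkey q' hqQ']
      · rw [e1]; exact hx q' hqQ'
      · rw [e2]; exact hy q' hqQ'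
    · intro a b hab q1 h1 q2 h2 q3 h3 q4 h4 q5 h5 s12 s23 s34 s45 e1 e2 e3 e4 e5
      refine halt a b hab q1 (hVQ _ h1) q2 (hVQ _ h2) q3 (hVQ _ h3) q4 (hVQ _ h4) q5 (hVQ _ h5)
        s12 s23 s34 s45 ?_ ?_ ?_ ?_ ?_ ?_
      · rw [← e1]; exact hx _ (hVQ _ h1)
      · rw [← e2]; exact hx _ (hVQ _ h2)
      · rw [← e3]; exact hx _ (hVQ _ h3)
      · rw [← e4]; exact hx _ (hVQ _ h4)
      · rw [← e5]; exact hx _ (hVQ _ h5)
      · rw [← e1, ← e2, hVx _ h1, hVx _ h2]
    · intro a b hab q1 h1 q2 h2 q3 h3 q4 h4 q5 h5 s12 s23 s34 s45 e1 e2 e3 e4 e5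
      refine halt a b hab q1 (hVQ _ h1) q2 (hVQ _ h2) q3 (hVQ _ h3) q4 (hVQ _ h4) q5 (hVQ _ h5)
        s12 s23 s34 s45 ?_ ?_ ?_ ?_ ?_ ?_
      · rw [← e1]; exact hy _ (hVQ _ h1)
      · rw [← e2]; exact hy _ (hVQ _ h2)
      · rw [← e3]; exact hy _ (hVQ _ h3)
      · rw [← e4]; exact hy _ (hVQ _ h4)
      · rw [← e5]; exact hy _ (hVQ _ h5)
      · rw [← e1, ← e2, hVy _ h1, hVy _ h2]
  have hcover : Q ⊆ (((Q.filter fun q => sg (A.grp (x q)) = 1 ∧ sg (A.grp (y q)) = 1) ∪
      (Q.filter fun q => sg (A.grp (x q)) = 1 ∧ sg (A.grp (y q)) = -1)) ∪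
      ((Q.filter fun q => sg (A.grp (x q)) = -1 ∧ sg (A.grp (y q)) = 1) ∪
      (Q.filter fun q => sg (A.grp (x q)) = -1 ∧ sg (A.grp (y q)) = -1))) := by
    intro q hq
    simp only [Finset.mem_union, Finset.mem_filter]
    rcases hsg (A.grp (x q)) with h1 | h1 <;> rcases hsg (A.grp (y q)) with h2 | h2
    · exact Or.inl (Or.inl ⟨hq, h1, h2⟩)
    · exact Or.inl (Or.inr ⟨hq, h1, h2⟩)
    · exact Or.inr (Or.inl ⟨hq, h1, h2⟩)
    · exact Or.inr (Or.inr ⟨hq, h1, h2⟩)
  have h11 := hclass 1 1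
  have h12 := hclass 1 (-1)
  have h21 := hclass (-1) 1
  have h22 := hclass (-1) (-1)
  have hle := (Finset.card_le_card hcover).trans ((Finset.card_union_le _ _).trans
    (add_le_add (Finset.card_union_le _ _) (Finset.card_union_le _ _)))
  omega

end Pool.Agent.Helper11.Trans
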