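import Pool.Agent.Helper11.Trans.Strip

/-!
# Packet D: the bound for pure vertices with two active groups
-/

namespace Pool.Agent.Helper11.Trans

set_option linter.unusedSectionVars false

open Finset Classical Matrix Pool.Agent.Helper39.Trans

variable {n : ℕ} {ι Λ κ : Type} [Fintype ι] [Fintype Λ] [Fintype κ] {A : Sys n ι Λ κ}

theorem cnt_mono {F S : Finset Λ} (h : F ⊆ S) (q : Fin n → ℝ) : A.cnt F q ≤ A.cnt S q := by
  unfold Sys.cnt
  have h1 : ∑ l ∈ F, ((A.W l q).card - 1) ≤ ∑ l ∈ S, ((A.W l q).card - 1) :=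
    Finset.sum_le_sum_of_subset h
  have h2 := Finset.card_le_card (Finset.filter_subset_filter (fun l => A.Act l q) h)
  omega

theorem cnt_insert_ge {F : Finset Λ} {q : Fin n → ℝ} {l : Λ} (hl : l ∉ F) (hD : l ∈ A.Dg q) :
    A.cnt F q + 1 ≤ A.cnt (insert l F) q := by
  unfold Sys.cnt
  rw [Finset.sum_insert hl, Finset.filter_insert]
  rcases Finset.mem_union.mp hD with h | h
  · have hact := (mem_Ig_iff A).mp h
    rw [if_pos hact, Finset.card_insert_of_notMem (by simp [hl])]
    omega
  · have h2 := (mem_Jg A).mp h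
    have h3 : (F.filter fun l => A.Act l q).card ≤
        (if A.Act l q then insert l (F.filter fun l => A.Act l q)
          else F.filter fun l => A.Act l q).card := by
      split_ifs
      · exact Finset.card_le_card (Finset.subset_insert _ _)
      · exact le_rfl
    omega

variable (A) in
/-- The functions of the defining groups which are minimal at `y`. -/
noncomputable def U (y : Fin n → ℝ) : Finset ι :=
  univ.filter fun v => v ∈ A.W (A.grp v) y ∧ A.grp v ∈ A.Dg y

theorem mem_U {y : Fin n → ℝ} {v : ι} :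
    v ∈ U A y ↔ v ∈ A.W (A.grp v) y ∧ A.grp v ∈ A.Dg y := by simp [U]

theorem card_U {G S : Finset Λ} {y : Fin n → ℝ} (hy : y ∈ A.DefSet G S) :
    (U A y).card ≤ 2 * n := by
  obtain ⟨⟨-, hcnt⟩, hD, -, -⟩ := hy
  have hsub : U A y ⊆ (A.Dg y).biUnion fun l => A.W l y := by
    intro v hv
    rw [mem_U] at hv
    rw [Finset.mem_biUnion]
    exact ⟨_, hv.2, hv.1⟩
  have h1 := (Finset.card_le_card hsub).trans Finset.card_biUnion_le
  have h2 : ∑ l ∈ A.Dg y, (A.W l y).card ≤ ∑ l ∈ A.Dg y, (((A.W l y).card - 1) + 1) := by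
    apply Finset.sum_le_sum
    intro l _
    omega
  rw [Finset.sum_add_distrib, Finset.sum_const, smul_eq_mul, mul_one] at h2
  have h3 : ∑ l ∈ A.Dg y, ((A.W l y).card - 1) ≤ A.cnt univ y := by
    unfold Sys.cnt
    have : ∑ l ∈ A.Dg y, ((A.W l y).card - 1) ≤ ∑ l, ((A.W l y).card - 1) :=
      Finset.sum_le_sum_of_subset (Finset.subset_univ _)
    omega
  omega

/-- Leaving a pure vertex along the edge where one active group and all ties are kept. -/
theorem exit (hLin : LinFacts n κ) (hEdge : EdgeExit n κ) (hF : A.Full) (hGP : A.GP)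
    (hB : A.Bdd) {G S : Finset Λ} {q : Fin n → ℝ} (hq : q ∈ A.PureSet 1 G S) {v : ι}
    (hv : Actv A q v) : ∃ y ∈ A.DefSet G S, key A q ⊆ U A y ∧ v ∈ U A y := by
  have P := pure2_of_mem A hq
  obtain ⟨-, -, -, hDS, hGJ⟩ := hq
  set F : Finset Λ := insert (A.grp v) (A.Jg q) with hFdef
  have hcF : A.cnt F q + 1 = n := cnt_F P hv
  have hvI : A.grp v ∈ A.Ig q := (mem_Ig A).mpr ⟨v, hv, rfl⟩
  have hvJ : A.grp v ∉ A.Jg q := Finset.disjoint_left.mp P.disj hvI
  obtain ⟨d, hd0, hker, -⟩ := (hLin ι Λ A hF hGP F q P.box).2.2.2.2 hcF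
  obtain ⟨s, hs, ⟨hyB, hyc⟩, -, hprop, -⟩ :=
    hEdge ι Λ A hF hGP hB F q d P.box hcF hd0 hker
  set y := q + s • d with hy
  have hJy : ∀ l ∈ A.Jg q, l ∈ A.Jg y := by
    intro l hl
    have h1 := (hprop l (Finset.mem_insert_of_mem hl)).1
    exact (mem_Jg A).mpr (((mem_Jg A).mp hl).trans (Finset.card_le_card h1))
  have hvy : A.grp v ∈ A.Ig y :=
    (mem_Ig_iff A).mpr ((hprop _ (Finset.mem_insert_self _ _)).2.1 ((mem_Ig_iff A).mp hvI))
  have hFD : F ⊆ A.Dg y := by
    intro l hl
    rcases Finset.mem_insert.mp hl with rfl | h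
    · exact Finset.mem_union_left _ hvy
    · exact Finset.mem_union_right _ (hJy l h)
  have hDF : A.Dg y ⊆ F := by
    intro l hl
    by_contra hcon
    have h1 := cnt_insert_ge hcon hl
    have h2 := (hLin ι Λ A hF hGP (insert l F) y hyB).1
    omega
  have hD : A.Dg y = F := Finset.Subset.antisymm hDF hFD
  have hcy : A.cnt univ y = n := by
    have h1 := (hLin ι Λ A hF hGP univ y hyB).1
    have h2 := cnt_mono (A := A) (Finset.subset_univ F) y
    omega
  refine ⟨y, ⟨⟨hyB, hcy⟩, ?_, ?_, ?_⟩, ?_, ?_⟩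
  · rw [hD, hFdef, Finset.card_insert_of_notMem hvJ]
    have := P.cardJ
    omega
  · rw [hD]
    intro l hl
    apply hDS
    rcases Finset.mem_insert.mp hl with rfl | h
    · exact Finset.mem_union_left _ hvI
    · exact Finset.mem_union_right _ h
  · intro l hl
    exact hJy l (hGJ hl)
  · intro w hw
    rw [mem_key] at hw
    rw [mem_U]
    exact ⟨(hprop _ (Finset.mem_insert_of_mem hw.2)).1 hw.1,
      Finset.mem_union_right _ (hJy _ hw.2)⟩
  · rw [mem_U]
    exact ⟨(hprop _ (Finset.mem_insert_self _ _)).1 hv.1, Finset.mem_union_left _ hvy⟩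

/-- Packet D. -/
theorem stripBound (n : ℕ) (κ : Type) [Fintype κ] :
    DS3 → LinFacts n κ → EdgeExit n κ → CountDef n κ → StripBound n κ := by
  rintro ⟨C, hC⟩ hLin hEdge ⟨C1, hDef⟩
  refine ⟨8 * C * (2 ^ (2 * n) * (2 * n)), ?_⟩
  intro ι Λ _ _ A t hF hGP hB hV G S hGS
  have hDfin : (A.DefSet G S).Finite := (hDef ι Λ A hF hGP G S hGS).1
  set PS : Set (Fin n → ℝ) := {q ∈ A.PureSet 1 G S | Disjoint (A.conf q) S} with hPS
  by_cases hfin : PS.Finite
  swap
  · rw [Set.Infinite.ncard hfin]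
    exact Nat.zero_le _
  set PF := hfin.toFinset with hPF
  set DF := hDfin.toFinset with hDF
  have hmemP : ∀ q, q ∈ PF ↔ q ∈ PS := fun q => by rw [hPF, Set.Finite.mem_toFinset]
  have hmemD : ∀ q, q ∈ DF ↔ q ∈ A.DefSet G S := fun q => by rw [hDF, Set.Finite.mem_toFinset]
  rw [Set.ncard_eq_toFinset_card _ hfin, Set.ncard_eq_toFinset_card _ hDfin]
  have hneg : ∀ q ∈ PF, ∀ q' ∈ PF, key A q = key A q' → ∀ v, Actv A q v →
      v ∈ A.W (A.grp v) q' → A.h v q' ≤ 0 := by
    intro q hq q' hq' hk v hv hvW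
    rw [hmemP] at hq hq'
    have P := pure2_of_mem A hq.1
    have P' := pure2_of_mem A hq'.1
    have hvI : A.grp v ∈ A.Ig q := (mem_Ig A).mpr ⟨v, hv, rfl⟩
    have hvJ : A.grp v ∉ A.Jg q := Finset.disjoint_left.mp P.disj hvI
    obtain ⟨-, -, -, hDS, hGJ⟩ := hq.1
    have hvS : A.grp v ∈ S := by
      rcases Finset.mem_union.mp (hDS (Finset.mem_union_left _ hvI)) with h | h
      · exact absurd (hGJ h) hvJ
      · exact h
    by_contra hcon
    push Not at hcon
    have hmin := ((mem_W A).mp hvW).2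
    have hconf : A.grp v ∈ A.conf q' := by
      unfold Sys.conf
      rw [Finset.mem_filter]
      refine ⟨Finset.mem_univ _, ?_, ?_⟩
      · intro hD
        rcases Finset.mem_union.mp hD with h | h
        · obtain ⟨w, hw, hwv⟩ := (mem_Ig A).mp h
          have := hmin w hwv
          rw [hw.2] at this
          linarith
        · rw [← Jg_eq_of_key A hk] at h
          exact hvJ h
      · intro w hw
        exact lt_of_lt_of_le hcon (hmin w ((mem_fib A).mp hw))
    exact Finset.disjoint_left.mp hq'.2 hconf hvS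
  set T : Finset ι → Finset ι := fun φ =>
    univ.filter fun v => ∃ q ∈ PF, key A q = φ ∧ Actv A q v with hT
  have hfib : ∀ φ ∈ PF.image (key A), (PF.filter fun q => key A q = φ).card ≤
      8 * C * (invAck (Fintype.card ι) + 1) * (T φ).card := by
    intro φ _
    have h1 := strip hC hLin hF hGP hV (PF.filter fun q => key A q = φ) φ (T φ)
      (by
        intro q hq
        rw [Finset.mem_filter, hmemP] at hq
        exact pure2_of_mem A hq.1.1)
      (by
        intro q hq
        exact (Finset.mem_filter.mp hq).2)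
      (by
        intro q hq v hv
        rw [Finset.mem_filter] at hq
        rw [hT, Finset.mem_filter]
        exact ⟨Finset.mem_univ _, q, hq.1, hq.2, hv⟩)
      (by
        intro q hq q' hq' v hv hvW
        rw [Finset.mem_filter] at hq hq'
        exact hneg q hq.1 q' hq'.1 (by rw [hq.2, hq'.2]) v hv hvW)
    have h2 : invAck (T φ).card ≤ invAck (Fintype.card ι) := invAck_mono (Finset.card_le_univ _)
    calc _ ≤ 8 * (C * (T φ).card * (invAck (T φ).card + 1)) := h1
      _ ≤ 8 * (C * (T φ).card * (invAck (Fintype.card ι) + 1)) := by gcongr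
      _ = 8 * C * (invAck (Fintype.card ι) + 1) * (T φ).card := by ring
  have hsumT : ∑ φ ∈ PF.image (key A), (T φ).card ≤ DF.card * (2 ^ (2 * n) * (2 * n)) := by
    rw [← Finset.card_sigma]
    have hex : ∀ p ∈ (PF.image (key A)).sigma T,
        ∃ y ∈ DF, p.1 ⊆ U A y ∧ p.2 ∈ U A y := by
      rintro ⟨φ, v⟩ hp
      rw [Finset.mem_sigma] at hp
      obtain ⟨-, hv⟩ := hp
      simp only at hv
      rw [hT, Finset.mem_filter] at hv
      obtain ⟨-, q, hq, hqφ, hqv⟩ := hv
      rw [hmemP] at hq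
      obtain ⟨y, hy, h1, h2⟩ := exit hLin hEdge hF hGP hB hq.1 hqv
      refine ⟨y, (hmemD y).mpr hy, ?_, h2⟩
      rw [← hqφ]
      exact h1
    have hmap : (((PF.image (key A)).sigma T).card) ≤
        (DF.sigma fun y => (U A y).powerset ×ˢ U A y).card := by
      choose! f hf using hex
      apply Finset.card_le_card_of_injOn
        (fun p => (⟨f p, (p.1, p.2)⟩ : Σ _ : Fin n → ℝ, Finset ι × ι))
      · intro p hp
        have := hf p hp
        simp only [Finset.coe_sigma, Set.mem_sigma_iff, Finset.mem_coe, Finset.mem_product,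
          Finset.mem_powerset]
        exact ⟨this.1, this.2.1, this.2.2⟩
      · rintro ⟨φ, v⟩ _ ⟨φ', v'⟩ _ h
        simp only [Sigma.mk.injEq] at h
        obtain ⟨-, h2⟩ := h
        have h3 := eq_of_heq h2
        simp only [Prod.mk.injEq] at h3
        obtain ⟨rfl, rfl⟩ := h3
        rfl
    refine hmap.trans ?_
    rw [Finset.card_sigma]
    calc ∑ y ∈ DF, ((U A y).powerset ×ˢ U A y).card
        ≤ ∑ _y ∈ DF, 2 ^ (2 * n) * (2 * n) := by
          apply Finset.sum_le_sum
          intro y hy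
          have hU := card_U ((hmemD y).mp hy)
          rw [Finset.card_product, Finset.card_powerset]
          exact Nat.mul_le_mul (Nat.pow_le_pow_right (by norm_num) hU) hU
      _ = DF.card * (2 ^ (2 * n) * (2 * n)) := by rw [Finset.sum_const, smul_eq_mul]
  calc PF.card = ∑ φ ∈ PF.image (key A), (PF.filter fun q => key A q = φ).card :=
        Finset.card_eq_sum_card_image _ _
    _ ≤ ∑ φ ∈ PF.image (key A), 8 * C * (invAck (Fintype.card ι) + 1) * (T φ).card :=
        Finset.sum_le_sum hfib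
    _ = 8 * C * (invAck (Fintype.card ι) + 1) * ∑ φ ∈ PF.image (key A), (T φ).card := by
        rw [Finset.mul_sum]
    _ ≤ 8 * C * (invAck (Fintype.card ι) + 1) * (DF.card * (2 ^ (2 * n) * (2 * n))) :=
        Nat.mul_le_mul_left _ hsumT
    _ = 8 * C * (2 ^ (2 * n) * (2 * n)) * (invAck (Fintype.card ι) + 1) * DF.card := by ring

end Pool.Agent.Helper11.Trans
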